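import Pool.Agent.H95.NV.Targets4

/-!
# (DG1) primes of degree one
-/

set_option autoImplicit false

open NumberField Polynomial
open scoped Real nonZeroDivisors

namespace Pool.Agent.H96.NVDG1

open Pool.Agent.H95.NV

/-- a primitive integral element and a denominator -/
theorem prim (M : Type) [Field M] [NumberField M] : ∃ θ : 𝓞 M, θ ≠ 0 ∧ ∃ e : ℤ, e ≠ 0 ∧
    ∀ x : 𝓞 M, (e : 𝓞 M) * x ∈ Algebra.adjoin ℤ {θ} := by
  obtain ⟨α, hα⟩ := Field.exists_primitive_element ℚ M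
  have halg : IsIntegral ℚ α := Algebra.IsIntegral.isIntegral α
  have htop : Algebra.adjoin ℚ {α} = ⊤ := by
    rw [← IntermediateField.adjoin_simple_toSubalgebra_of_isAlgebraic halg.isAlgebraic, hα]
    rfl
  -- an integral multiple
  have h1 : ∃ θ : 𝓞 M, θ ≠ 0 ∧ ∃ n : ℤ, n ≠ 0 ∧ ∃ s ∈ Algebra.adjoin ℤ {θ},
      (n : M) * α = algebraMap (𝓞 M) M s := by
    by_cases h0 : α = 0
    · exact ⟨1, one_ne_zero, 1, one_ne_zero, 0, Subalgebra.zero_mem _, by rw [h0]; simp⟩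
    · obtain ⟨m, hm0, hm⟩ := exists_integral_multiples ℤ ℚ (L := M) {α}
      have h2 := hm α (Finset.mem_singleton_self _)
      have h3 : IsIntegral ℤ ((m : M) * α) := by simpa [Algebra.smul_def] using h2
      refine ⟨⟨(m : M) * α, h3⟩, ?_, m, hm0, ⟨(m : M) * α, h3⟩, Algebra.subset_adjoin rfl, rfl⟩
      intro h4
      have h5 := congrArg (fun z : 𝓞 M => (z : M)) h4
      have h6 : (m : M) * α = 0 := h5
      rcases mul_eq_zero.1 h6 with h7 | h7
      · exact hm0 (by exact_mod_cast h7)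
      · exact h0 h7
  obtain ⟨θ, hθ, n0, hn0, s0, hs0, hα0⟩ := h1
  refine ⟨θ, hθ, ?_⟩
  have key : ∀ x : M, ∃ n : ℤ, n ≠ 0 ∧ ∃ s ∈ Algebra.adjoin ℤ {θ},
      (n : M) * x = algebraMap (𝓞 M) M s := by
    intro x
    have hx : x ∈ Algebra.adjoin ℚ {α} := by rw [htop]; trivial
    induction hx using Algebra.adjoin_induction with
    | mem x hx =>
      rw [Set.mem_singleton_iff] at hx
      rw [hx]
      exact ⟨n0, hn0, s0, hs0, hα0⟩
    | algebraMap r =>
      refine ⟨r.den, by exact_mod_cast r.den_nz, (r.num : 𝓞 M), ?_, ?_⟩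
      · exact Subalgebra.intCast_mem _ _
      · have hd : (r.den : M) ≠ 0 := by exact_mod_cast r.den_nz
        rw [eq_ratCast, Rat.cast_def, map_intCast]
        push_cast
        field_simp
    | add x y _ _ hx hy =>
      obtain ⟨n, hn, s, hs, e1⟩ := hx
      obtain ⟨m, hm, t, ht, e2⟩ := hy
      refine ⟨n * m, mul_ne_zero hn hm, (m : 𝓞 M) * s + (n : 𝓞 M) * t,
        Subalgebra.add_mem _ (Subalgebra.mul_mem _ (Subalgebra.intCast_mem _ _) hs)
          (Subalgebra.mul_mem _ (Subalgebra.intCast_mem _ _) ht), ?_⟩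
      simp only [map_add, map_mul, map_intCast, Int.cast_mul]
      rw [← e1, ← e2]
      ring
    | mul x y _ _ hx hy =>
      obtain ⟨n, hn, s, hs, e1⟩ := hx
      obtain ⟨m, hm, t, ht, e2⟩ := hy
      refine ⟨n * m, mul_ne_zero hn hm, s * t, Subalgebra.mul_mem _ hs ht, ?_⟩
      simp only [map_add, map_mul, map_intCast, Int.cast_mul]
      rw [← e1, ← e2]
      ring
  choose n hn s hs he using key
  refine ⟨∏ i, n ((RingOfIntegers.basis M i : 𝓞 M) : M), Finset.prod_ne_zero_iff.2 (fun i _ => hn _),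
    fun x => ?_⟩
  have hb : ∀ i, ((∏ j, n ((RingOfIntegers.basis M j : 𝓞 M) : M) : ℤ) : 𝓞 M) *
      RingOfIntegers.basis M i ∈ Algebra.adjoin ℤ {θ} := by
    intro i
    have e1 : ((n ((RingOfIntegers.basis M i : 𝓞 M) : M) : ℤ) : 𝓞 M) * RingOfIntegers.basis M i =
        s ((RingOfIntegers.basis M i : 𝓞 M) : M) := by
      apply FaithfulSMul.algebraMap_injective (𝓞 M) M
      have := he ((RingOfIntegers.basis M i : 𝓞 M) : M)
      rw [map_mul, map_intCast]
      exact this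
    classical
    rw [← Finset.mul_prod_erase _ _ (Finset.mem_univ i)]
    push_cast
    have e2 : ((n ((RingOfIntegers.basis M i : 𝓞 M) : M) : ℤ) : 𝓞 M) *
        (∏ j ∈ Finset.univ.erase i, ((n ((RingOfIntegers.basis M j : 𝓞 M) : M) : ℤ) : 𝓞 M)) *
        RingOfIntegers.basis M i =
        (∏ j ∈ Finset.univ.erase i, ((n ((RingOfIntegers.basis M j : 𝓞 M) : M) : ℤ) : 𝓞 M)) *
        s ((RingOfIntegers.basis M i : 𝓞 M) : M) := by
      rw [← e1]; ring
    rw [e2]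
    refine Subalgebra.mul_mem _ ?_ (hs _)
    exact Subalgebra.prod_mem _ (fun j _ => Subalgebra.intCast_mem _ _)
  rw [← (RingOfIntegers.basis M).sum_repr x, Finset.mul_sum]
  refine Subalgebra.sum_mem _ (fun i _ => ?_)
  rw [mul_smul_comm]
  exact Subalgebra.smul_mem _ (hb i) _

/-- the residue field is a prime field -/
theorem resid {M : Type} [Field M] [NumberField M] (θ : 𝓞 M) (e : ℤ)
    (he : ∀ x : 𝓞 M, (e : 𝓞 M) * x ∈ Algebra.adjoin ℤ {θ}) (P : Ideal (𝓞 M)) (hP : P.IsPrime)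
    (hP0 : P ≠ ⊥) (n : ℤ) (hn : (n : 𝓞 M) - θ ∈ P) (heP : (e : 𝓞 M) ∉ P) :
    (Ideal.absNorm P).Prime := by
  have hmax : P.IsMaximal := hP.isMaximal hP0
  let _ : Field (𝓞 M ⧸ P) := Ideal.Quotient.field P
  have : Finite (𝓞 M ⧸ P) := Ideal.finiteQuotientOfFreeOfNeBot P hP0
  have hcard : Ideal.absNorm P = Nat.card (𝓞 M ⧸ P) := by
    rw [Ideal.absNorm_apply]; rfl
  set p := ringChar (𝓞 M ⧸ P) with hp
  have : CharP (𝓞 M ⧸ P) p := ringChar.charP _
  have hpp : p.Prime := CharP.char_is_prime (𝓞 M ⧸ P) p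
  have : Fact p.Prime := ⟨hpp⟩
  let g : ZMod p →+* (𝓞 M ⧸ P) := ZMod.castHom (dvd_refl p) _
  have hgi : ∀ m : ℤ, g (m : ZMod p) = Ideal.Quotient.mk P (m : 𝓞 M) := fun m => by
    rw [map_intCast, map_intCast]
  have hadj : ∀ s ∈ Algebra.adjoin ℤ {θ}, ∃ m : ℤ, s - (m : 𝓞 M) ∈ P := by
    intro s hs
    induction hs using Algebra.adjoin_induction with
    | mem x hx =>
      rw [Set.mem_singleton_iff] at hx
      refine ⟨n, ?_⟩
      rw [hx, ← neg_sub]
      exact P.neg_mem hn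
    | algebraMap r => exact ⟨r, by simp⟩
    | add x y _ _ hx hy =>
      obtain ⟨a, ha⟩ := hx
      obtain ⟨b, hb⟩ := hy
      refine ⟨a + b, ?_⟩
      have e1 : x + y - ((a + b : ℤ) : 𝓞 M) = (x - a) + (y - b) := by push_cast; ring
      rw [e1]
      exact P.add_mem ha hb
    | mul x y _ _ hx hy =>
      obtain ⟨a, ha⟩ := hx
      obtain ⟨b, hb⟩ := hy
      refine ⟨a * b, ?_⟩
      have e1 : x * y - ((a * b : ℤ) : 𝓞 M) = (x - a) * y + a * (y - b) := by push_cast; ring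
      rw [e1]
      exact P.add_mem (P.mul_mem_right _ ha) (P.mul_mem_left _ hb)
  have hsurj : Function.Surjective g := by
    intro z
    obtain ⟨x, rfl⟩ := Ideal.Quotient.mk_surjective z
    obtain ⟨m, hm⟩ := hadj _ (he x)
    have h1 : Ideal.Quotient.mk P (e : 𝓞 M) * Ideal.Quotient.mk P x =
        Ideal.Quotient.mk P (m : 𝓞 M) := by
      rw [← map_mul]
      exact Ideal.Quotient.eq.2 hm
    have h2 : Ideal.Quotient.mk P (e : 𝓞 M) ≠ 0 := by
      intro h
      exact heP (Ideal.Quotient.eq_zero_iff_mem.1 h)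
    refine ⟨(m : ZMod p) / (e : ZMod p), ?_⟩
    rw [map_div₀, hgi, hgi, div_eq_iff h2, ← h1, mul_comm]
  have hbij : Function.Bijective g := ⟨g.injective, hsurj⟩
  rw [hcard, ← Nat.card_congr (Equiv.ofBijective g hbij), Nat.card_zmod]
  exact hpp

/-- some values are not units -/
theorem nonunit {M : Type} [Field M] [NumberField M] (a : 𝓞 M) (ha : a ≠ 0) :
    ∃ t : ℕ, ¬ IsUnit ((t : 𝓞 M) * a - 1) := by
  have hw : ∀ w : InfinitePlace M, 0 < w (a : M) := fun w => by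
    rw [InfinitePlace.pos_iff]
    intro h
    apply ha
    apply FaithfulSMul.algebraMap_injective (𝓞 M) M
    rw [map_zero]
    exact h
  obtain ⟨t, ht⟩ := exists_nat_gt (∑ w : InfinitePlace M, 3 / w (a : M))
  refine ⟨t, fun hu => ?_⟩
  have h1 : |Algebra.norm ℚ (((t : 𝓞 M) * a - 1 : 𝓞 M) : M)| = 1 := by
    have := NumberField.isUnit_iff_norm.1 hu
    rwa [RingOfIntegers.coe_norm] at this
  have h2 := InfinitePlace.prod_eq_abs_norm (((t : 𝓞 M) * a - 1 : 𝓞 M) : M)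
  rw [h1] at h2
  have h3 : ∀ w : InfinitePlace M, 2 ≤ w (((t : 𝓞 M) * a - 1 : 𝓞 M) : M) := by
    intro w
    have e1 : (((t : 𝓞 M) * a - 1 : 𝓞 M) : M) = (t : M) * (a : M) - 1 := by push_cast; rfl
    have e2 : w ((t : M) * (a : M)) ≤ w (((t : 𝓞 M) * a - 1 : 𝓞 M) : M) + 1 := by
      calc w ((t : M) * (a : M)) = w ((((t : 𝓞 M) * a - 1 : 𝓞 M) : M) + 1) := by
            rw [e1]; congr 1; ring
        _ ≤ w (((t : 𝓞 M) * a - 1 : 𝓞 M) : M) + w 1 := w.1.add_le _ _
        _ = _ := by rw [map_one]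
    have e3 : w ((t : M) * (a : M)) = t * w (a : M) := by
      rw [map_mul]
      congr 1
      have : w ((t : ℕ) : M) = ‖((t : ℕ) : ℂ)‖ := by
        rw [← InfinitePlace.norm_embedding_eq, map_natCast]
      rw [this, Complex.norm_natCast]
    have e4 : 3 / w (a : M) < t := by
      refine lt_of_le_of_lt ?_ ht
      exact Finset.single_le_sum (f := fun w : InfinitePlace M => 3 / w (a : M))
        (fun w _ => (div_pos (by norm_num) (hw w)).le) (Finset.mem_univ w)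
    rw [div_lt_iff₀ (hw w)] at e4
    linarith
  have h4 : (1 : ℝ) < ∏ w : InfinitePlace M, w (((t : 𝓞 M) * a - 1 : 𝓞 M) : M) ^ w.mult := by
    obtain ⟨w0⟩ : Nonempty (InfinitePlace M) := inferInstance
    calc (1 : ℝ) < 2 := by norm_num
      _ ≤ w0 (((t : 𝓞 M) * a - 1 : 𝓞 M) : M) ^ w0.mult := by
        calc (2 : ℝ) ≤ w0 (((t : 𝓞 M) * a - 1 : 𝓞 M) : M) := h3 w0
          _ ≤ _ := le_self_pow₀ (by linarith [h3 w0]) InfinitePlace.mult_ne_zero
      _ ≤ _ := by
        have h5 : ∀ w ∈ (Finset.univ : Finset (InfinitePlace M)),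
            (1 : ℝ) ≤ w (((t : 𝓞 M) * a - 1 : 𝓞 M) : M) ^ w.mult := fun w _ =>
          one_le_pow₀ (by linarith [h3 w])
        classical
        rw [← Finset.mul_prod_erase _ _ (Finset.mem_univ w0)]
        refine le_mul_of_one_le_right (by have := h3 w0; positivity) ?_
        calc (1 : ℝ) = ∏ w ∈ Finset.univ.erase w0, (1 : ℝ) := by rw [Finset.prod_const_one]
          _ ≤ _ := Finset.prod_le_prod (fun _ _ => zero_le_one)
            (fun w _ => h5 w (Finset.mem_univ w))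
  rw [h2] at h4
  norm_num at h4

theorem pf_DG1 : T_DG1 := by
  intro M _ _ hfin
  obtain ⟨θ, hθ, e, he0, he⟩ := prim M
  set s := hfin.toFinset with hs
  have hmem : ∀ P : Ideal (𝓞 M), P ∈ s ↔ P.IsPrime ∧ (Ideal.absNorm P).Prime := fun P => by
    rw [hs, Set.Finite.mem_toFinset]; rfl
  -- the multiple of theta
  have hc0 : Ideal.absNorm (Ideal.span {θ}) ≠ 0 := by
    rw [Ne, Ideal.absNorm_eq_zero_iff, Ideal.span_singleton_eq_bot]
    exact hθ
  obtain ⟨θ', hθ'⟩ := Ideal.mem_span_singleton.1 (Ideal.absNorm_mem (Ideal.span {θ}))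
  have hθ'0 : θ' ≠ 0 := by
    intro h
    rw [h, mul_zero] at hθ'
    exact hc0 (by exact_mod_cast hθ')
  set Q0 : 𝓞 M := (e : 𝓞 M) * ∏ P ∈ s, (Ideal.absNorm P : 𝓞 M) with hQ0
  have he0' : (e : 𝓞 M) ≠ 0 := by exact_mod_cast he0
  have hQ00 : Q0 ≠ 0 := by
    refine mul_ne_zero he0' (Finset.prod_ne_zero_iff.2 (fun P hP => ?_))
    have := ((hmem P).1 hP).2.ne_zero
    exact_mod_cast this
  obtain ⟨t, ht⟩ := nonunit (Q0 * θ') (mul_ne_zero hQ00 hθ'0)
  obtain ⟨P, hPmax, hPy⟩ := exists_max_ideal_of_mem_nonunits ht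
  have hQP : Q0 ∉ P := by
    intro h
    apply hPmax.ne_top
    rw [Ideal.eq_top_iff_one]
    have e1 : (1 : 𝓞 M) = Q0 * (θ' * t) - ((t : 𝓞 M) * (Q0 * θ') - 1) := by ring
    rw [e1]
    exact P.sub_mem (P.mul_mem_right _ h) hPy
  have hP0 : P ≠ ⊥ := by
    intro h
    exact RingOfIntegers.not_isField M
      ((Ring.isField_iff_maximal_bot).2 (h ▸ hPmax))
  have heP : (e : 𝓞 M) ∉ P := fun h => hQP (P.mul_mem_right _ h)
  set n : ℤ := (Ideal.absNorm (Ideal.span {θ}) : ℤ) * (t * (e * ∏ P ∈ s, (Ideal.absNorm P : ℤ)))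
    with hn
  have hnP : (n : 𝓞 M) - θ ∈ P := by
    have e1 : (n : 𝓞 M) - θ = θ * ((t : 𝓞 M) * (Q0 * θ') - 1) := by
      rw [hn, hQ0]
      push_cast
      rw [hθ']
      ring
    rw [e1]
    exact P.mul_mem_left _ hPy
  have hPs : P ∈ s := (hmem P).2 ⟨hPmax.isPrime, resid θ e he P hPmax.isPrime hP0 n hnP heP⟩
  apply hQP
  rw [hQ0]
  refine P.mul_mem_left _ ?_
  classical
  rw [← Finset.mul_prod_erase _ _ hPs]
  exact P.mul_mem_right _ (Ideal.absNorm_mem P)

end Pool.Agent.H96.NVDG1
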