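import Pool.Agent.H95.NV.Targets4

/-!
# (EMJ) two embeddings
-/

set_option autoImplicit false

open NumberField Polynomial
open scoped Real nonZeroDivisors

namespace Pool.Agent.H96.NV

open Pool.Agent.H95.NV
open Pool.Agent.H65.CM4 (Pl rv)
open Pool.Agent.H89.NV (CK tp)

/-- the elements of a quadratic extension -/
theorem mem_quad {F : Type} [Field F] (M : Subfield F) (t : F) (ht : t ^ 2 ∈ M) (x : F)
    (hx : x ∈ Subfield.closure ((M : Set F) ∪ {t})) : ∃ a ∈ M, ∃ b ∈ M, x = a + b * t := by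
  induction hx using Subfield.closure_induction with
  | mem x hx =>
    rcases hx with hx | hx
    · exact ⟨x, hx, 0, M.zero_mem, by ring⟩
    · rw [Set.mem_singleton_iff] at hx
      exact ⟨0, M.zero_mem, 1, M.one_mem, by rw [hx]; ring⟩
  | one => exact ⟨1, M.one_mem, 0, M.zero_mem, by ring⟩
  | add x y _ _ hx hy =>
    obtain ⟨a, ha, b, hb, rfl⟩ := hx
    obtain ⟨a', ha', b', hb', rfl⟩ := hy
    exact ⟨a + a', M.add_mem ha ha', b + b', M.add_mem hb hb', by ring⟩
  | neg x _ hx =>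
    obtain ⟨a, ha, b, hb, rfl⟩ := hx
    exact ⟨-a, M.neg_mem ha, -b, M.neg_mem hb, by ring⟩
  | inv x _ hx =>
    obtain ⟨a, ha, b, hb, rfl⟩ := hx
    have hd : a ^ 2 - b ^ 2 * t ^ 2 ∈ M :=
      M.sub_mem (M.pow_mem ha 2) (M.mul_mem (M.pow_mem hb 2) ht)
    by_cases h0 : a + b * t = 0
    · exact ⟨0, M.zero_mem, 0, M.zero_mem, by rw [h0]; simp⟩
    by_cases h1 : a - b * t = 0
    · refine ⟨(2 * a)⁻¹, M.inv_mem (M.mul_mem (ofNat_mem M 2) ha), 0, M.zero_mem, ?_⟩
      have : a + b * t = 2 * a := by linear_combination -h1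
      rw [this]; ring
    · refine ⟨a * (a ^ 2 - b ^ 2 * t ^ 2)⁻¹, M.mul_mem ha (M.inv_mem hd),
        -b * (a ^ 2 - b ^ 2 * t ^ 2)⁻¹, M.mul_mem (M.neg_mem hb) (M.inv_mem hd), ?_⟩
      have e : a ^ 2 - b ^ 2 * t ^ 2 = (a + b * t) * (a - b * t) := by ring
      rw [e]
      field_simp
      ring
  | mul x y _ _ hx hy =>
    obtain ⟨a, ha, b, hb, rfl⟩ := hx
    obtain ⟨a', ha', b', hb', rfl⟩ := hy
    exact ⟨a * a' + b * b' * t ^ 2, M.add_mem (M.mul_mem ha ha') (M.mul_mem (M.mul_mem hb hb') ht),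
      a * b' + b * a', M.add_mem (M.mul_mem ha hb') (M.mul_mem hb ha'), by ring⟩

/-- the automorphism of a quadratic extension -/
theorem aut_quad {F : Type} [Field F] (E : Subfield F) (t : F) (ht : t ^ 2 ∈ E) (htE : t ∉ E)
    (htop : Subfield.closure ((E : Set F) ∪ {t}) = ⊤) :
    ∃ τ : F ≃+* F, (∀ x ∈ E, τ x = x) ∧ τ t = -t := by
  have hirr : Irreducible (X ^ 2 - C (⟨t ^ 2, ht⟩ : E)) := by
    refine X_pow_sub_C_irreducible_of_prime Nat.prime_two (fun b hb => ?_)
    have h1 : (b : F) ^ 2 = t ^ 2 := by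
      have := congrArg (fun z : E => (z : F)) hb
      simpa using this
    rcases sq_eq_sq_iff_eq_or_eq_neg.1 h1 with h2 | h2
    · exact htE (h2 ▸ b.2)
    · apply htE
      have : t = -(b : F) := by rw [h2]; ring
      rw [this]
      exact E.neg_mem b.2
  have hmon : (X ^ 2 - C (⟨t ^ 2, ht⟩ : E)).Monic := monic_X_pow_sub_C _ (by norm_num)
  have hroot : aeval t (X ^ 2 - C (⟨t ^ 2, ht⟩ : E)) = 0 := by
    simp only [map_sub, map_pow, aeval_X, aeval_C]
    exact sub_self _
  have hroot' : aeval (-t) (X ^ 2 - C (⟨t ^ 2, ht⟩ : E)) = 0 := by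
    simp only [map_sub, map_pow, aeval_X, aeval_C, neg_sq]
    exact sub_self _
  have hmin : X ^ 2 - C (⟨t ^ 2, ht⟩ : E) = minpoly E t :=
    minpoly.eq_of_irreducible_of_monic hirr hroot hmon
  have hint : IsIntegral E t := ⟨_, hmon, by rw [← aeval_def]; exact hroot⟩
  have htop' : IntermediateField.adjoin E {t} = ⊤ := by
    rw [eq_top_iff]
    intro x _
    have hx : x ∈ Subfield.closure ((E : Set F) ∪ {t}) := by rw [htop]; trivial
    obtain ⟨a, ha, b, hb, rfl⟩ := mem_quad E t ht x hx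
    refine (IntermediateField.adjoin E {t}).add_mem ?_ ((IntermediateField.adjoin E {t}).mul_mem ?_ ?_)
    · exact (IntermediateField.adjoin E {t}).algebraMap_mem ⟨a, ha⟩
    · exact (IntermediateField.adjoin E {t}).algebraMap_mem ⟨b, hb⟩
    · exact IntermediateField.mem_adjoin_simple_self E t
  have hr2 : -t ∈ (minpoly E t).aroots F := by
    rw [← hmin, mem_aroots]
    exact ⟨hmon.ne_zero, hroot'⟩
  let g : IntermediateField.adjoin E {t} →ₐ[E] F :=
    (IntermediateField.algHomAdjoinIntegralEquiv E hint).symm ⟨-t, hr2⟩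
  have hg : g (IntermediateField.AdjoinSimple.gen E t) = -t :=
    IntermediateField.algHomAdjoinIntegralEquiv_symm_apply_gen E hint ⟨-t, hr2⟩
  let e0 : F ≃ₐ[E] IntermediateField.adjoin E {t} :=
    (IntermediateField.topEquiv (F := E) (E := F)).symm.trans
      (IntermediateField.equivOfEq htop'.symm)
  let σ : F →ₐ[E] F := g.comp (e0 : F →ₐ[E] IntermediateField.adjoin E {t})
  have hσt : σ t = -t := by
    have : e0 t = IntermediateField.AdjoinSimple.gen E t := by
      apply Subtype.ext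
      rfl
    change g (e0 t) = -t
    rw [this, hg]
  have hσσ : ∀ x, σ (σ x) = x := by
    intro x
    have hx : x ∈ Subfield.closure ((E : Set F) ∪ {t}) := by rw [htop]; trivial
    obtain ⟨a, ha, b, hb, rfl⟩ := mem_quad E t ht x hx
    have ea : σ a = a := σ.commutes ⟨a, ha⟩
    have eb : σ b = b := σ.commutes ⟨b, hb⟩
    rw [map_add, map_mul, ea, eb, hσt, map_add, map_mul, ea, eb, map_neg, hσt, neg_neg]
  refine ⟨{ toFun := σ, invFun := σ, left_inv := hσσ, right_inv := hσσ,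
            map_mul' := map_mul σ, map_add' := map_add σ }, fun x hx => ?_, hσt⟩
  exact σ.commutes ⟨x, hx⟩

/-- complex embeddings of a totally real field are real -/
theorem emb_real {k : Type} [Field k] [NumberField k] [IsTotallyReal k] (ρ : k →+* ℂ) (x : k) :
    ∃ v : Pl k, ρ x = ((rv v x : ℝ) : ℂ) := by
  have h1 : ComplexEmbedding.IsReal ρ :=
    InfinitePlace.isReal_mk_iff.1 (IsTotallyReal.isReal (InfinitePlace.mk ρ))
  refine ⟨InfinitePlace.mk ρ, ?_⟩
  unfold rv
  rw [InfinitePlace.embedding_of_isReal_apply, InfinitePlace.embedding_mk_eq_of_isReal h1]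

theorem real_closure {k F : Type} [Field k] [NumberField k] [IsTotallyReal k] [Field F]
    (σ0 τ0 : k →+* F) (φ : F →+* ℂ) (x : F)
    (hx : x ∈ Subfield.closure (Set.range σ0 ∪ Set.range τ0)) : ∃ r : ℝ, φ x = r := by
  induction hx using Subfield.closure_induction with
  | mem x hx =>
    rcases hx with ⟨y, rfl⟩ | ⟨y, rfl⟩
    · obtain ⟨v, hv⟩ := emb_real (φ.comp σ0) y
      exact ⟨_, hv⟩
    · obtain ⟨v, hv⟩ := emb_real (φ.comp τ0) y
      exact ⟨_, hv⟩
  | one => exact ⟨1, by simp⟩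
  | add x y _ _ hx hy =>
    obtain ⟨a, ha⟩ := hx
    obtain ⟨b, hb⟩ := hy
    exact ⟨a + b, by rw [map_add, ha, hb]; push_cast; rfl⟩
  | neg x _ hx =>
    obtain ⟨a, ha⟩ := hx
    exact ⟨-a, by rw [map_neg, ha]; push_cast; rfl⟩
  | inv x _ hx =>
    obtain ⟨a, ha⟩ := hx
    exact ⟨a⁻¹, by rw [map_inv₀, ha]; push_cast; rfl⟩
  | mul x y _ _ hx hy =>
    obtain ⟨a, ha⟩ := hx
    obtain ⟨b, hb⟩ := hy
    exact ⟨a * b, by rw [map_mul, ha, hb]; push_cast; rfl⟩

theorem pf_EMJ : T_EMJ := by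
  intro k K _ _ _ _ _ _ D h hD hexc c hc F _ _ i j hij htop
  have hsq : h.s ^ 2 = -algebraMap k K (D : k) := by rw [sq]; exact h.sq
  have hci : ∀ x : K, c x = algebraMap k K (h.re x) - algebraMap k K (h.im x) * h.s := by
    intro x
    conv_lhs => rw [h.eq x]
    rw [map_add, map_mul, c.commutes, c.commutes, hc]
    ring
  set σ0 : k →+* F := i.comp (algebraMap k K) with hσ0
  set τ0 : k →+* F := j.comp (algebraMap k K) with hτ0
  have his : (i h.s) ^ 2 = -σ0 (D : k) := by
    rw [← map_pow, hsq, map_neg]; rfl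
  have hjs : (j h.s) ^ 2 = -τ0 (D : k) := by
    rw [← map_pow, hsq, map_neg]; rfl
  have hix : ∀ x : K, i x = σ0 (h.re x) + σ0 (h.im x) * i h.s := by
    intro x
    conv_lhs => rw [h.eq x]
    rw [map_add, map_mul]; rfl
  have hjx : ∀ x : K, j x = τ0 (h.re x) + τ0 (h.im x) * j h.s := by
    intro x
    conv_lhs => rw [h.eq x]
    rw [map_add, map_mul]; rfl
  have hicx : ∀ x : K, i (c x) = σ0 (h.re x) - σ0 (h.im x) * i h.s := by
    intro x
    rw [hci x, map_sub, map_mul]; rfl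
  by_cases hst : σ0 = τ0
  · left
    have h1 : (j h.s) ^ 2 = (i h.s) ^ 2 := by rw [hjs, his, hst]
    rcases sq_eq_sq_iff_eq_or_eq_neg.1 h1 with h2 | h2
    · exfalso
      apply hij
      ext x
      rw [hix, hjx, hst, h2]
    · intro x
      rw [hjx, hicx, hst, h2]
      ring
  · right
    obtain ⟨φ⟩ : Nonempty (F →+* ℂ) := inferInstance
    set M : Subfield F := Subfield.closure (Set.range σ0 ∪ Set.range τ0) with hM
    have hσM : ∀ x, σ0 x ∈ M := fun x => Subfield.subset_closure (Or.inl ⟨x, rfl⟩)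
    have hτM : ∀ x, τ0 x ∈ M := fun x => Subfield.subset_closure (Or.inr ⟨x, rfl⟩)
    -- square roots of negative numbers are not in M
    have hneg : ∀ (ρ : k →+* F) (t : F), t ^ 2 = -ρ (D : k) → t ∉ M := by
      intro ρ t ht htM
      obtain ⟨r, hr⟩ := real_closure σ0 τ0 φ t htM
      obtain ⟨v, hv⟩ := emb_real (φ.comp ρ) (D : k)
      have h1 : φ t ^ 2 = -(φ.comp ρ) (D : k) := by
        rw [← map_pow, ht, map_neg]; rfl
      rw [hr, hv] at h1
      have h2 : r ^ 2 = -(rv v (D : k)) := by exact_mod_cast h1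
      have h3 := hD v
      nlinarith [sq_nonneg r]
    have hsM : i h.s ∉ M := hneg σ0 _ his
    have htM : j h.s ∉ M := hneg τ0 _ hjs
    have hns : ∀ m ∈ M, σ0 (D : k) * τ0 (D : k) ≠ m ^ 2 := by
      intro m hm he
      apply hexc
      refine ⟨φ.comp σ0, φ.comp τ0, ?_, φ m, ?_, ?_⟩
      · intro he'
        apply hst
        ext x
        have := congrArg (fun g : k →+* ℂ => g x) he'
        exact φ.injective this
      · have e1 : (Set.range (φ.comp σ0) ∪ Set.range (φ.comp τ0)) =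
            φ '' (Set.range σ0 ∪ Set.range τ0) := by
          rw [Set.image_union, ← Set.range_comp, ← Set.range_comp]
          rfl
        rw [e1, ← RingHom.map_field_closure]
        exact ⟨m, hm, rfl⟩
      · rw [← map_pow, ← he, map_mul]; rfl
    -- the field E
    set E : Subfield F := Subfield.closure ((M : Set F) ∪ {j h.s}) with hE
    have hME : ∀ x ∈ M, x ∈ E := fun x hx => Subfield.subset_closure (Or.inl hx)
    have hjE : j h.s ∈ E := Subfield.subset_closure (Or.inr rfl)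
    have hjs2 : (j h.s) ^ 2 ∈ M := by rw [hjs]; exact M.neg_mem (hτM _)
    have hsE : i h.s ∉ E := by
      intro hs
      obtain ⟨a, ha, b, hb, hab⟩ := mem_quad M (j h.s) hjs2 _ hs
      have h1 : -σ0 (D : k) = a ^ 2 + b ^ 2 * (-τ0 (D : k)) + 2 * (a * b) * j h.s := by
        rw [← his, ← hjs, hab]; ring
      have hab0 : a * b = 0 := by
        by_contra h0
        apply htM
        have h2 : j h.s = (-σ0 (D : k) - a ^ 2 - b ^ 2 * (-τ0 (D : k))) * (2 * (a * b))⁻¹ := by
          have h3 : (2 * (a * b)) ≠ 0 := mul_ne_zero two_ne_zero h0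
          rw [eq_mul_inv_iff_mul_eq₀ h3, h1]
          ring
        rw [h2]
        refine M.mul_mem (M.sub_mem (M.sub_mem (M.neg_mem (hσM _)) (M.pow_mem ha 2))
          (M.mul_mem (M.pow_mem hb 2) (M.neg_mem (hτM _)))) (M.inv_mem (M.mul_mem (ofNat_mem M 2)
            (M.mul_mem ha hb)))
      rcases mul_eq_zero.1 hab0 with h0 | h0
      · apply hns (b * τ0 (D : k)) (M.mul_mem hb (hτM _))
        rw [h0] at h1
        have h4 : σ0 (D : k) = b ^ 2 * τ0 (D : k) := by linear_combination -h1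
        rw [h4]; ring
      · apply hsM
        rw [hab, h0]
        simpa using ha
    have hs2 : (i h.s) ^ 2 ∈ E := by rw [his]; exact E.neg_mem (hME _ (hσM _))
    have htop2 : Subfield.closure ((E : Set F) ∪ {i h.s}) = ⊤ := by
      rw [eq_top_iff, ← htop, Subfield.closure_le]
      have hEE : ∀ x ∈ E, x ∈ Subfield.closure ((E : Set F) ∪ {i h.s}) :=
        fun x hx => Subfield.subset_closure (Or.inl hx)
      have hss : i h.s ∈ Subfield.closure ((E : Set F) ∪ {i h.s}) :=
        Subfield.subset_closure (Or.inr rfl)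
      rintro x (⟨y, rfl⟩ | ⟨y, rfl⟩)
      · rw [hix y]
        exact Subfield.add_mem _ (hEE _ (hME _ (hσM _)))
          (Subfield.mul_mem _ (hEE _ (hME _ (hσM _))) hss)
      · rw [hjx y]
        exact Subfield.add_mem _ (hEE _ (hME _ (hτM _)))
          (Subfield.mul_mem _ (hEE _ (hME _ (hτM _))) (hEE _ hjE))
    obtain ⟨τ, h1, h2⟩ := aut_quad E (i h.s) hs2 hsE htop2
    refine ⟨τ, fun x => ?_, fun x => ?_⟩
    · rw [hjx, map_add, map_mul, h1 _ (hME _ (hτM _)), h1 _ (hME _ (hτM _)), h1 _ hjE]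
    · rw [hix, hicx, map_add, map_mul, h1 _ (hME _ (hσM _)), h1 _ (hME _ (hσM _)), h2]
      ring

end Pool.Agent.H96.NV
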